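import Mathlib

namespace Pool.R357.RG

open MeasureTheory Set
open scoped Pointwise

/-! ### The Cantor set is a null set -/

lemma volume_preCantor (n : ℕ) : volume (preCantorSet n) ≤ ENNReal.ofReal ((2 / 3) ^ n) := by
  induction n with
  | zero => simp
  | succ n ih =>
    rw [preCantorSet_succ]
    have h1 : ((· / 3) '' preCantorSet n : Set ℝ) = (1 / 3 : ℝ) • preCantorSet n := by
      ext x; simp only [Set.mem_image, Set.mem_smul_set, smul_eq_mul]
      constructor
      · rintro ⟨y, hy, rfl⟩; exact ⟨y, hy, by ring⟩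
      · rintro ⟨y, hy, rfl⟩; exact ⟨y, hy, by ring⟩
    have h2 : ((fun x => (2 + x) / 3) '' preCantorSet n : Set ℝ) =
        (fun x => x + 2 / 3) '' ((1 / 3 : ℝ) • preCantorSet n) := by
      ext x; simp only [Set.mem_image, Set.mem_smul_set, smul_eq_mul]
      constructor
      · rintro ⟨y, hy, rfl⟩; exact ⟨_, ⟨y, hy, rfl⟩, by ring⟩
      · rintro ⟨_, ⟨y, hy, rfl⟩, rfl⟩; exact ⟨y, hy, by ring⟩
    refine (measure_union_le _ _).trans ?_
    rw [h1, h2, image_add_right, measure_preimage_add_right, Measure.addHaar_smul]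
    have h3 : ENNReal.ofReal |(1 / 3 : ℝ) ^ Module.finrank ℝ ℝ| = ENNReal.ofReal (1 / 3) := by
      rw [Module.finrank_self, pow_one, abs_of_pos (by norm_num)]
    rw [h3]
    calc ENNReal.ofReal (1 / 3) * volume (preCantorSet n) +
          ENNReal.ofReal (1 / 3) * volume (preCantorSet n)
        ≤ ENNReal.ofReal (1 / 3) * ENNReal.ofReal ((2 / 3) ^ n) +
          ENNReal.ofReal (1 / 3) * ENNReal.ofReal ((2 / 3) ^ n) := by gcongr
      _ = ENNReal.ofReal ((2 / 3) ^ (n + 1)) := by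
        rw [← ENNReal.ofReal_mul (by norm_num), ← ENNReal.ofReal_add (by positivity) (by positivity)]
        congr 1; ring

lemma volume_cantorSet : volume cantorSet = 0 := by
  have h1 : ∀ n, volume cantorSet ≤ ENNReal.ofReal ((2 / 3) ^ n) := fun n =>
    (measure_mono (iInter_subset _ n)).trans (volume_preCantor n)
  have h2 : Filter.Tendsto (fun n : ℕ => ENNReal.ofReal ((2 / 3 : ℝ) ^ n)) Filter.atTop (nhds 0) := by
    rw [← ENNReal.ofReal_zero]
    exact (ENNReal.continuous_ofReal.tendsto 0).comp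
      (tendsto_pow_atTop_nhds_zero_of_lt_one (by norm_num) (by norm_num))
  exact le_antisymm (ge_of_tendsto' h2 h1) (zero_le)

/-! ### The digit map -/

def dbl (a : Fin 2) : Fin 3 := if a = 0 then 0 else 2

lemma dbl_ne_one (a : Fin 2) : dbl a ≠ 1 := by fin_cases a <;> decide

/-- `Φ(t)`: read the binary digits of `t` in base `3`, doubled. -/
noncomputable def Phi (t : ℝ) : ℝ := Real.ofDigits (fun i => dbl (Real.digits t 2 i))

lemma Phi_mem (t : ℝ) : Phi t ∈ cantorSet :=
  ofDigits_zero_two_sequence_mem_cantorSet fun _ => dbl_ne_one _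

lemma Phi_growth {s t : ℝ} (hs : s ∈ Ico (0 : ℝ) 1) (ht : t ∈ Ico (0 : ℝ) 1) (hst : s < t) :
    (1 / 3) * (t - s) ^ (8 / 5 : ℝ) ≤ Phi t - Phi s := by
  have es : Real.ofDigits (Real.digits s 2) = s := Real.ofDigits_digits (by norm_num) hs
  have et : Real.ofDigits (Real.digits t 2) = t := Real.ofDigits_digits (by norm_num) ht
  set ds := Real.digits s 2 with hds
  set dt := Real.digits t 2 with hdt
  have hne : ∃ i, ds i ≠ dt i := by
    by_contra h
    push Not at h
    have : ds = dt := funext h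
    rw [this, et] at es
    linarith
  classical
  set i := Nat.find hne with hi
  have hpre : ∀ j < i, ds j = dt j := fun j hj => by
    have := Nat.find_min hne hj
    push Not at this
    exact this
  have hne_i : ds i ≠ dt i := Nat.find_spec hne
  have hts : t - s ≤ ((2 : ℝ) ^ i)⁻¹ := by
    have := Real.abs_ofDigits_sub_ofDigits_le hpre
    rw [es, et] at this
    rw [abs_sub_comm] at this
    exact (le_abs_self _).trans this
  -- the digit of s is 0, that of t is 1
  have hdig : ds i = 0 ∧ dt i = 1 := by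
    by_contra hcon
    have h01 : ds i = 1 ∧ dt i = 0 := by
      generalize hx : ds i = x at *
      generalize hy : dt i = y at *
      fin_cases x <;> fin_cases y <;> simp_all
    have hs1 := Real.ofDigits_eq_sum_add_ofDigits ds (i + 1)
    have ht1 := Real.ofDigits_eq_sum_add_ofDigits dt (i + 1)
    rw [es, Finset.sum_range_succ] at hs1
    rw [et, Finset.sum_range_succ] at ht1
    have hsum : ∑ j ∈ Finset.range i, Real.ofDigitsTerm ds j =
        ∑ j ∈ Finset.range i, Real.ofDigitsTerm dt j := by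
      refine Finset.sum_congr rfl fun j hj => ?_
      unfold Real.ofDigitsTerm
      rw [hpre j (Finset.mem_range.1 hj)]
    have h1 : Real.ofDigitsTerm ds i = (((2 : ℕ) : ℝ) ^ (i + 1))⁻¹ := by
      unfold Real.ofDigitsTerm; rw [h01.1]; simp
    have h2 : Real.ofDigitsTerm dt i = 0 := by
      unfold Real.ofDigitsTerm; rw [h01.2]; simp
    have h3 := Real.ofDigits_nonneg (fun j => ds (j + (i + 1)))
    have h4 := Real.ofDigits_le_one (fun j => dt (j + (i + 1)))
    have h5 : 0 < (((2 : ℕ) : ℝ) ^ (i + 1))⁻¹ := by positivity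
    have h6 : t ≤ s := by
      rw [hs1, ht1, hsum, h1, h2]
      have h7 : (((2 : ℕ) : ℝ) ^ (i + 1))⁻¹ * Real.ofDigits (fun j => dt (j + (i + 1))) ≤
          (((2 : ℕ) : ℝ) ^ (i + 1))⁻¹ := mul_le_of_le_one_right h5.le h4
      have h8 : 0 ≤ (((2 : ℕ) : ℝ) ^ (i + 1))⁻¹ * Real.ofDigits (fun j => ds (j + (i + 1))) := by
        positivity
      linarith
    linarith
  -- growth of Phi
  have hPhi : ((3 : ℝ) ^ (i + 1))⁻¹ ≤ Phi t - Phi s := by
    have hs1 := Real.ofDigits_eq_sum_add_ofDigits (fun j => dbl (ds j)) (i + 1)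
    have ht1 := Real.ofDigits_eq_sum_add_ofDigits (fun j => dbl (dt j)) (i + 1)
    have hs2 : Phi s = Real.ofDigits (fun j => dbl (ds j)) := rfl
    have ht2 : Phi t = Real.ofDigits (fun j => dbl (dt j)) := rfl
    rw [Finset.sum_range_succ] at hs1 ht1
    have hsum : ∑ j ∈ Finset.range i, Real.ofDigitsTerm (fun j => dbl (ds j)) j =
        ∑ j ∈ Finset.range i, Real.ofDigitsTerm (fun j => dbl (dt j)) j := by
      refine Finset.sum_congr rfl fun j hj => ?_
      simp only [Real.ofDigitsTerm]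
      rw [hpre j (Finset.mem_range.1 hj)]
    have h1 : Real.ofDigitsTerm (fun j => dbl (ds j)) i = 0 := by
      simp only [Real.ofDigitsTerm]; rw [hdig.1]; simp [dbl]
    have h2 : Real.ofDigitsTerm (fun j => dbl (dt j)) i = 2 * (((3 : ℕ) : ℝ) ^ (i + 1))⁻¹ := by
      simp only [Real.ofDigitsTerm]; rw [hdig.2]; simp [dbl]
    have h3 := Real.ofDigits_nonneg (fun j => dbl (dt (j + (i + 1))))
    have h4 := Real.ofDigits_le_one (fun j => dbl (ds (j + (i + 1))))
    have h5 : 0 < (((3 : ℕ) : ℝ) ^ (i + 1))⁻¹ := by positivity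
    have h7 : (((3 : ℕ) : ℝ) ^ (i + 1))⁻¹ * Real.ofDigits (fun j => dbl (ds (j + (i + 1)))) ≤
        (((3 : ℕ) : ℝ) ^ (i + 1))⁻¹ := mul_le_of_le_one_right h5.le h4
    have h8 : 0 ≤ (((3 : ℕ) : ℝ) ^ (i + 1))⁻¹ *
        Real.ofDigits (fun j => dbl (dt (j + (i + 1)))) := by positivity
    have h9 : ((3 : ℝ) ^ (i + 1))⁻¹ = (((3 : ℕ) : ℝ) ^ (i + 1))⁻¹ := by push_cast; rfl
    rw [hs2, ht2, hs1, ht1, hsum, h1, h2, h9]
    linarith
  refine le_trans ?_ hPhi
  have h1 : (t - s) ^ (8 / 5 : ℝ) ≤ (((2 : ℝ) ^ i)⁻¹) ^ (8 / 5 : ℝ) :=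
    Real.rpow_le_rpow (by linarith) hts (by norm_num)
  have h2 : (((2 : ℝ) ^ i)⁻¹) ^ (8 / 5 : ℝ) ≤ ((3 : ℝ) ^ i)⁻¹ := by
    rw [Real.inv_rpow (by positivity)]
    apply inv_anti₀ (by positivity)
    rw [← Real.rpow_natCast, ← Real.rpow_natCast, ← Real.rpow_mul (by norm_num), mul_comm,
      Real.rpow_mul (by norm_num)]
    apply Real.rpow_le_rpow (by norm_num) _ (by positivity)
    -- 3 ≤ 2^(8/5)
    have h3 : (3 : ℝ) ^ (5 : ℕ) ≤ ((2 : ℝ) ^ (8 / 5 : ℝ)) ^ (5 : ℕ) := by
      rw [← Real.rpow_natCast ((2 : ℝ) ^ (8 / 5 : ℝ)), ← Real.rpow_mul (by norm_num)]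
      norm_num
    exact le_of_pow_le_pow_left₀ (by norm_num) (by positivity) h3
  have h3 : ((3 : ℝ) ^ (i + 1))⁻¹ = (1 / 3) * ((3 : ℝ) ^ i)⁻¹ := by
    rw [pow_succ]; field_simp
  rw [h3]
  linarith

lemma Phi_lt {s t : ℝ} (hs : s ∈ Ico (0 : ℝ) 1) (ht : t ∈ Ico (0 : ℝ) 1) (hst : s < t) :
    Phi s < Phi t := by
  have h1 := Phi_growth hs ht hst
  have h2 : 0 < (t - s) ^ (8 / 5 : ℝ) := Real.rpow_pos_of_pos (by linarith) _
  linarith

lemma Phi_nonneg (t : ℝ) : 0 ≤ Phi t := Real.ofDigits_nonneg _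

lemma Phi_le_one (t : ℝ) : Phi t ≤ 1 := Real.ofDigits_le_one _

/-- a monotone extension of `Phi`. -/
noncomputable def Psi (t : ℝ) : ℝ := if t < 0 then -1 else if t < 1 then Phi t else 2

lemma Psi_eq {t : ℝ} (ht : t ∈ Ico (0 : ℝ) 1) : Psi t = Phi t := by
  unfold Psi
  rw [if_neg (not_lt.2 ht.1), if_pos ht.2]

lemma Psi_mono : Monotone Psi := by
  intro s t hst
  unfold Psi
  have h1 := Phi_nonneg t
  have h2 := Phi_le_one s
  split_ifs with a b c d e f
  · exact le_rfl
  · linarith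
  · linarith
  · linarith
  · rcases hst.eq_or_lt with h | h
    · rw [h]
    · exact (Phi_lt ⟨not_lt.1 a, d⟩ ⟨not_lt.1 e, f⟩ h).le
  · linarith
  · exfalso; linarith
  · exfalso; linarith
  · exact le_rfl

end Pool.R357.RG
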