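import Pool.Agent.R357.RG.Phi

namespace Pool.R357.RG

open MeasureTheory Set

/-- the slice, steep case -/
lemma slice_steep (u1 u2 c w τ : ℝ) (hu : u1 ^ 2 + u2 ^ 2 = 1) (h2 : |u2| < 1 / 4) :
    volume {x : ℝ | x ∈ Ico (0 : ℝ) 1 ∧ c ≤ u1 * x + u2 * (x ^ 2 + τ) ∧
      u1 * x + u2 * (x ^ 2 + τ) ≤ c + w} ≤ ENNReal.ofReal (4 * w) := by
  set A := {x : ℝ | x ∈ Ico (0 : ℝ) 1 ∧ c ≤ u1 * x + u2 * (x ^ 2 + τ) ∧
      u1 * x + u2 * (x ^ 2 + τ) ≤ c + w} with hA
  refine (Real.volume_le_diam A).trans ?_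
  refine Metric.ediam_le fun x hx y hy => ?_
  rw [edist_dist, Real.dist_eq]
  apply ENNReal.ofReal_le_ofReal
  obtain ⟨⟨hx0, hx1⟩, hx2, hx3⟩ := hx
  obtain ⟨⟨hy0, hy1⟩, hy2, hy3⟩ := hy
  have hu1 : 3 / 4 < |u1| := by
    by_contra h
    push Not at h
    have h3 : u1 ^ 2 ≤ (3 / 4) ^ 2 := by rw [← sq_abs]; exact pow_le_pow_left₀ (abs_nonneg _) h 2
    have h4 : u2 ^ 2 ≤ (1 / 4) ^ 2 := by rw [← sq_abs]; exact pow_le_pow_left₀ (abs_nonneg _) h2.le 2
    nlinarith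
  have h5 : |(x - y) * (u1 + u2 * (x + y))| ≤ w := by
    have h6 : (x - y) * (u1 + u2 * (x + y)) =
      (u1 * x + u2 * (x ^ 2 + τ)) - (u1 * y + u2 * (y ^ 2 + τ)) := by ring
    rw [h6, abs_le]
    constructor <;> linarith
  rw [abs_mul] at h5
  have h6 : 1 / 4 ≤ |u1 + u2 * (x + y)| := by
    have h7 : |u2 * (x + y)| ≤ 1 / 2 := by
      rw [abs_mul, abs_of_nonneg (by linarith : 0 ≤ x + y)]
      nlinarith [abs_nonneg u2]
    have h8 := abs_sub_abs_le_abs_sub u1 (-(u2 * (x + y)))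
    rw [abs_neg, sub_neg_eq_add] at h8
    linarith
  nlinarith [abs_nonneg (x - y)]

lemma sq_slice (D η : ℝ) (hD : 0 < D) (hη : 0 < η) :
    volume {y : ℝ | D - η ≤ y ^ 2 ∧ y ^ 2 ≤ D} ≤ ENNReal.ofReal (2 * η / Real.sqrt D) := by
  set R := Real.sqrt D with hR
  set r := Real.sqrt (D - η) with hr
  have hR0 : 0 < R := Real.sqrt_pos.2 hD
  have hr0 : 0 ≤ r := Real.sqrt_nonneg _
  have hR2 : R * R = D := Real.mul_self_sqrt hD.le
  have hrR : r ≤ R := Real.sqrt_le_sqrt (by linarith)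
  have hr2 : D - η ≤ r * r := by
    by_cases h : 0 ≤ D - η
    · rw [Real.mul_self_sqrt h]
    · push Not at h
      nlinarith
  have hsub : {y : ℝ | D - η ≤ y ^ 2 ∧ y ^ 2 ≤ D} ⊆ Icc r R ∪ Icc (-R) (-r) := by
    rintro y ⟨h1, h2⟩
    have h3 : |y| ≤ R := Real.abs_le_sqrt h2
    have h4 : r ≤ |y| := by
      rw [hr, ← Real.sqrt_sq_eq_abs]
      exact Real.sqrt_le_sqrt h1
    rcases le_total 0 y with h | h
    · left
      rw [abs_of_nonneg h] at h3 h4
      exact ⟨h4, h3⟩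
    · right
      rw [abs_of_nonpos h] at h3 h4
      constructor <;> linarith
  refine (measure_mono hsub).trans ((measure_union_le _ _).trans ?_)
  rw [Real.volume_Icc, Real.volume_Icc, ← ENNReal.ofReal_add (by linarith) (by linarith)]
  apply ENNReal.ofReal_le_ofReal
  rw [le_div_iff₀ hR0]
  nlinarith

lemma sq_slice_zero (D η : ℝ) (hD : D ≤ 0) :
    volume {y : ℝ | D - η ≤ y ^ 2 ∧ y ^ 2 ≤ D} = 0 := by
  have hsub : {y : ℝ | D - η ≤ y ^ 2 ∧ y ^ 2 ≤ D} ⊆ {0} := by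
    rintro y ⟨h1, h2⟩
    have : y ^ 2 = 0 := le_antisymm (by linarith) (sq_nonneg y)
    simpa using this
  exact measure_mono_null hsub (by simp)

/-- the slice, flat case -/
lemma slice_flat (u1 u2 c w τ : ℝ) (hw : 0 < w) (h2 : 0 < u2) :
    volume {x : ℝ | x ∈ Ico (0 : ℝ) 1 ∧ c ≤ u1 * x + u2 * (x ^ 2 + τ) ∧
      u1 * x + u2 * (x ^ 2 + τ) ≤ c + w} ≤
    if τ < (c + w) / u2 + (u1 / u2) ^ 2 / 4 then
      ENNReal.ofReal (2 * (w / u2) / Real.sqrt ((c + w) / u2 + (u1 / u2) ^ 2 / 4 - τ)) else 0 := by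
  set β := (c + w) / u2 + (u1 / u2) ^ 2 / 4 with hβ
  set η := w / u2 with hη
  have hη0 : 0 < η := by positivity
  have hsub : {x : ℝ | x ∈ Ico (0 : ℝ) 1 ∧ c ≤ u1 * x + u2 * (x ^ 2 + τ) ∧
      u1 * x + u2 * (x ^ 2 + τ) ≤ c + w} ⊆
      (fun x => x + u1 / u2 / 2) ⁻¹' {y : ℝ | (β - τ) - η ≤ y ^ 2 ∧ y ^ 2 ≤ β - τ} := by
    rintro x ⟨_, h3, h4⟩
    have e : u1 * x + u2 * (x ^ 2 + τ) =
        u2 * ((x + u1 / u2 / 2) ^ 2 + τ - (u1 / u2) ^ 2 / 4) := by
      field_simp; ring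
    rw [e] at h3 h4
    have h5 : (x + u1 / u2 / 2) ^ 2 + τ - (u1 / u2) ^ 2 / 4 ≤ (c + w) / u2 := by
      rw [le_div_iff₀ h2]; linarith
    have h6 : c / u2 ≤ (x + u1 / u2 / 2) ^ 2 + τ - (u1 / u2) ^ 2 / 4 := by
      rw [div_le_iff₀ h2]; linarith
    have h7 : (c + w) / u2 = c / u2 + η := by rw [hη]; ring
    simp only [mem_preimage, mem_ofPred_eq]
    rw [hβ, h7]
    rw [h7] at h5
    constructor <;> linarith
  refine (measure_mono hsub).trans ?_
  rw [measure_preimage_add_right]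
  split_ifs with h
  · exact sq_slice (β - τ) η (by linarith) hη0
  · exact (sq_slice_zero (β - τ) η (by linarith)).le

lemma int_bound (T : ℝ) (h0 : 0 ≤ T) (h1 : T ≤ 1) :
    ∫⁻ t in Ioc 0 T, ENNReal.ofReal ((T - t) ^ (-(4 / 5) : ℝ)) ≤ ENNReal.ofReal 5 := by
  have hint : IntervalIntegrable (fun t : ℝ => (T - t) ^ (-(4 / 5) : ℝ)) volume 0 T := by
    have h := (intervalIntegral.intervalIntegrable_rpow' (a := 0) (b := T)
      (show (-1 : ℝ) < -(4 / 5) by norm_num)).comp_sub_left T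
    simp only [sub_zero, sub_self] at h
    exact h.symm
  rw [← ofReal_integral_eq_lintegral_ofReal]
  · apply ENNReal.ofReal_le_ofReal
    rw [← intervalIntegral.integral_of_le h0]
    have e := intervalIntegral.integral_comp_sub_left (a := 0) (b := T)
      (fun x : ℝ => x ^ (-(4 / 5) : ℝ)) T
    rw [e, sub_self, sub_zero, integral_rpow (Or.inl (by norm_num))]
    have h3 : (0 : ℝ) ^ (-(4 / 5) + 1 : ℝ) = 0 := Real.zero_rpow (by norm_num)
    rw [h3]
    have h4 : T ^ (-(4 / 5) + 1 : ℝ) ≤ 1 := Real.rpow_le_one h0 h1 (by norm_num)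
    have h5 : (-(4 / 5) + 1 : ℝ) = 1 / 5 := by norm_num
    rw [h5] at h4 ⊢
    linarith
  · exact (intervalIntegrable_iff_integrableOn_Ioc_of_le h0).1 hint
  · refine (ae_restrict_iff' measurableSet_Ioc).2 (Filter.Eventually.of_forall fun t ht => ?_)
    exact Real.rpow_nonneg (by linarith [ht.2]) _

/-- integral of the flat slices -/
lemma int_flat (β η : ℝ) (hη : 0 < η) :
    ∫⁻ t in Ico (0 : ℝ) 1, (if Psi t < β then
      ENNReal.ofReal (2 * η / Real.sqrt (β - Psi t)) else 0) ≤ ENNReal.ofReal (20 * η) := by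
  classical
  set S : Set ℝ := {t | t ∈ Ico (0 : ℝ) 1 ∧ Psi t < β} with hS
  by_cases hne : S.Nonempty
  swap
  · rw [Set.not_nonempty_iff_eq_empty] at hne
    have h1 : ∀ t ∈ Ico (0 : ℝ) 1, (if Psi t < β then
        ENNReal.ofReal (2 * η / Real.sqrt (β - Psi t)) else 0) = 0 := by
      intro t ht
      rw [if_neg]
      intro h
      have : t ∈ S := ⟨ht, h⟩
      rw [hne] at this
      exact this
    rw [setLIntegral_congr_fun measurableSet_Ico h1]
    simp
  have hbdd : BddAbove S := ⟨1, fun t ht => ht.1.2.le⟩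
  set T := sSup S with hT
  have hT0 : 0 ≤ T := by
    obtain ⟨t, ht⟩ := hne
    exact ht.1.1.trans (le_csSup hbdd ht)
  have hT1 : T ≤ 1 := csSup_le hne fun t ht => ht.1.2.le
  have key : ∀ t ∈ S, (T - t) ^ (8 / 5 : ℝ) ≤ 3 * (β - Psi t) := by
    intro t ht
    have hpos : 0 ≤ 3 * (β - Psi t) := by linarith [ht.2]
    have h1 : T ≤ t + (3 * (β - Psi t)) ^ (5 / 8 : ℝ) := by
      apply csSup_le hne
      intro t' ht'
      rcases le_or_gt t' t with h | h
      · have : 0 ≤ (3 * (β - Psi t)) ^ (5 / 8 : ℝ) := Real.rpow_nonneg hpos _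
        linarith
      · have h2 := Phi_growth ht.1 ht'.1 h
        rw [← Psi_eq ht.1, ← Psi_eq ht'.1] at h2
        have h3 : (t' - t) ^ (8 / 5 : ℝ) ≤ 3 * (β - Psi t) := by
          have := ht'.2
          linarith
        have h4 : ((t' - t) ^ (8 / 5 : ℝ)) ^ (5 / 8 : ℝ) ≤ (3 * (β - Psi t)) ^ (5 / 8 : ℝ) :=
          Real.rpow_le_rpow (Real.rpow_nonneg (by linarith) _) h3 (by norm_num)
        rw [← Real.rpow_mul (by linarith)] at h4
        norm_num at h4
        linarith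
    have h2 : T - t ≤ (3 * (β - Psi t)) ^ (5 / 8 : ℝ) := by linarith
    have h3 : (T - t) ^ (8 / 5 : ℝ) ≤ ((3 * (β - Psi t)) ^ (5 / 8 : ℝ)) ^ (8 / 5 : ℝ) :=
      Real.rpow_le_rpow (by linarith [le_csSup hbdd ht]) h2 (by norm_num)
    rw [← Real.rpow_mul hpos] at h3
    norm_num at h3
    exact h3
  -- pointwise bound
  have hpt : ∀ t ∈ Ico (0 : ℝ) 1, t ≠ T → (if Psi t < β then
      ENNReal.ofReal (2 * η / Real.sqrt (β - Psi t)) else 0) ≤
      (Ioc 0 T ∪ {0}).indicator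
        (fun t => ENNReal.ofReal (4 * η) * ENNReal.ofReal ((T - t) ^ (-(4 / 5) : ℝ))) t := by
    intro t ht htT
    split_ifs with h
    · have htS : t ∈ S := ⟨ht, h⟩
      have hle : t ≤ T := le_csSup hbdd htS
      have hlt : t < T := lt_of_le_of_ne hle htT
      have hmem : t ∈ Ioc 0 T ∪ {0} := by
        rcases ht.1.eq_or_lt with h0 | h0
        · right; exact h0.symm
        · left; exact ⟨h0, hle⟩
      rw [indicator_of_mem hmem, ← ENNReal.ofReal_mul (by positivity)]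
      apply ENNReal.ofReal_le_ofReal
      have hk := key t htS
      have hpos : 0 < T - t := by linarith
      set s := (T - t) ^ (4 / 5 : ℝ) with hs
      have hs0 : 0 < s := Real.rpow_pos_of_pos hpos _
      have hs2 : (T - t) ^ (8 / 5 : ℝ) = s ^ 2 := by
        rw [hs, ← Real.rpow_natCast, ← Real.rpow_mul hpos.le]; norm_num
      have hs3 : (T - t) ^ (-(4 / 5) : ℝ) = s⁻¹ := by rw [hs, Real.rpow_neg hpos.le]
      rw [hs3]
      rw [hs2] at hk
      have h5 : s / 2 ≤ Real.sqrt (β - Psi t) := by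
        apply Real.le_sqrt_of_sq_le
        nlinarith
      calc 2 * η / Real.sqrt (β - Psi t) ≤ 2 * η / (s / 2) := by
            apply div_le_div_of_nonneg_left (by positivity) (by positivity) h5
        _ = 4 * η * s⁻¹ := by field_simp; norm_num
    · exact zero_le
  have hae : ∀ᵐ t ∂(volume.restrict (Ico (0 : ℝ) 1)), (if Psi t < β then
      ENNReal.ofReal (2 * η / Real.sqrt (β - Psi t)) else 0) ≤
      (Ioc 0 T ∪ {0}).indicator
        (fun t => ENNReal.ofReal (4 * η) * ENNReal.ofReal ((T - t) ^ (-(4 / 5) : ℝ))) t := by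
    rw [ae_restrict_iff' measurableSet_Ico]
    have hT' : ∀ᵐ t ∂(volume : Measure ℝ), t ≠ T := by
      rw [ae_iff]; simp
    filter_upwards [hT'] with t ht1 ht2
    exact hpt t ht2 ht1
  refine (lintegral_mono_ae hae).trans ?_
  calc ∫⁻ t in Ico (0 : ℝ) 1, (Ioc 0 T ∪ {0}).indicator
        (fun t => ENNReal.ofReal (4 * η) * ENNReal.ofReal ((T - t) ^ (-(4 / 5) : ℝ))) t
      ≤ ∫⁻ t, (Ioc 0 T ∪ {0}).indicator
        (fun t => ENNReal.ofReal (4 * η) * ENNReal.ofReal ((T - t) ^ (-(4 / 5) : ℝ))) t :=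
        setLIntegral_le_lintegral _ _
    _ = ∫⁻ t in Ioc 0 T ∪ {0}, ENNReal.ofReal (4 * η) *
          ENNReal.ofReal ((T - t) ^ (-(4 / 5) : ℝ)) := by
        rw [lintegral_indicator (measurableSet_Ioc.union (measurableSet_singleton 0))]
    _ ≤ (∫⁻ t in Ioc 0 T, ENNReal.ofReal (4 * η) *
          ENNReal.ofReal ((T - t) ^ (-(4 / 5) : ℝ))) +
        ∫⁻ t in {0}, ENNReal.ofReal (4 * η) *
          ENNReal.ofReal ((T - t) ^ (-(4 / 5) : ℝ)) := lintegral_union_le _ _ _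
    _ = ENNReal.ofReal (4 * η) * ∫⁻ t in Ioc 0 T, ENNReal.ofReal ((T - t) ^ (-(4 / 5) : ℝ)) := by
        rw [lintegral_const_mul' _ _ ENNReal.ofReal_ne_top]
        have : volume.restrict ({0} : Set ℝ) = 0 := by
          rw [Measure.restrict_eq_zero]; simp
        rw [this, lintegral_zero_measure, add_zero]
    _ ≤ ENNReal.ofReal (4 * η) * ENNReal.ofReal 5 := by
        gcongr
        exact int_bound T hT0 hT1
    _ = ENNReal.ofReal (20 * η) := by
        rw [← ENNReal.ofReal_mul (by positivity)]; congr 1; ring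

/-- The parametrised strip. -/
def PS (u1 u2 c w : ℝ) : Set (ℝ × ℝ) :=
  {z | (z.1 ∈ Ico (0 : ℝ) 1 ∧ z.2 ∈ Ico (0 : ℝ) 1) ∧ c ≤ u1 * z.1 + u2 * (z.1 ^ 2 + Psi z.2) ∧
    u1 * z.1 + u2 * (z.1 ^ 2 + Psi z.2) ≤ c + w}

lemma measurableSet_PS (u1 u2 c w : ℝ) : MeasurableSet (PS u1 u2 c w) := by
  have hΨ : Measurable Psi := Psi_mono.measurable
  have hf : Measurable fun z : ℝ × ℝ => u1 * z.1 + u2 * (z.1 ^ 2 + Psi z.2) := by
    have h : Measurable fun z : ℝ × ℝ => Psi z.2 := hΨ.comp measurable_snd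
    exact (measurable_fst.const_mul u1).add (((measurable_fst.pow_const 2).add h).const_mul u2)
  have h1 : MeasurableSet {z : ℝ × ℝ | z.1 ∈ Ico (0 : ℝ) 1 ∧ z.2 ∈ Ico (0 : ℝ) 1} :=
    measurableSet_Ico.prod measurableSet_Ico
  exact h1.inter ((measurableSet_le measurable_const hf).inter
    (measurableSet_le hf measurable_const))

lemma PS_pos (u1 u2 c w : ℝ) (hw : 0 < w) (h2 : 1 / 4 ≤ u2) :
    (volume : Measure (ℝ × ℝ)) (PS u1 u2 c w) ≤ ENNReal.ofReal (80 * w) := by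
  have hu2 : 0 < u2 := by linarith
  rw [Measure.volume_eq_prod, Measure.prod_apply_symm (measurableSet_PS u1 u2 c w)]
  have h3 : ∀ t : ℝ, volume ((fun x => (x, t)) ⁻¹' PS u1 u2 c w) ≤
      (Ico (0 : ℝ) 1).indicator (fun t => if Psi t < (c + w) / u2 + (u1 / u2) ^ 2 / 4 then
      ENNReal.ofReal (2 * (w / u2) / Real.sqrt ((c + w) / u2 + (u1 / u2) ^ 2 / 4 - Psi t)) else 0) t := by
    intro t
    by_cases ht : t ∈ Ico (0 : ℝ) 1
    · rw [indicator_of_mem ht]
      refine le_trans (measure_mono ?_) (slice_flat u1 u2 c w (Psi t) hw hu2)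
      rintro x ⟨⟨hx, _⟩, hx2, hx3⟩
      exact ⟨hx, hx2, hx3⟩
    · have : (fun x => (x, t)) ⁻¹' PS u1 u2 c w = ∅ := by
        ext x
        simp only [mem_preimage, mem_empty_iff_false, iff_false]
        rintro ⟨⟨_, h⟩, _⟩
        exact ht h
      rw [this, measure_empty]
      exact zero_le
  refine (lintegral_mono h3).trans ?_
  rw [lintegral_indicator measurableSet_Ico]
  refine (int_flat _ (w / u2) (by positivity)).trans ?_
  apply ENNReal.ofReal_le_ofReal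
  have : w / u2 ≤ 4 * w := by
    rw [div_le_iff₀ hu2]; nlinarith
  linarith

lemma PS_le (u1 u2 c w : ℝ) (hw : 0 < w) (hu : u1 ^ 2 + u2 ^ 2 = 1) :
    (volume : Measure (ℝ × ℝ)) (PS u1 u2 c w) ≤ ENNReal.ofReal (80 * w) := by
  by_cases h : |u2| < 1 / 4
  · rw [Measure.volume_eq_prod, Measure.prod_apply_symm (measurableSet_PS u1 u2 c w)]
    have h3 : ∀ t : ℝ, volume ((fun x => (x, t)) ⁻¹' PS u1 u2 c w) ≤
        (Ico (0 : ℝ) 1).indicator (fun _ => ENNReal.ofReal (4 * w)) t := by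
      intro t
      by_cases ht : t ∈ Ico (0 : ℝ) 1
      · rw [indicator_of_mem ht]
        refine le_trans (measure_mono ?_) (slice_steep u1 u2 c w (Psi t) hu h)
        rintro x ⟨⟨hx, _⟩, hx2, hx3⟩
        exact ⟨hx, hx2, hx3⟩
      · have : (fun x => (x, t)) ⁻¹' PS u1 u2 c w = ∅ := by
          ext x
          simp only [mem_preimage, mem_empty_iff_false, iff_false]
          rintro ⟨⟨_, h⟩, _⟩
          exact ht h
        rw [this, measure_empty]
        exact zero_le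
    refine (lintegral_mono h3).trans ?_
    rw [lintegral_indicator measurableSet_Ico, setLIntegral_const, Real.volume_Ico]
    rw [← ENNReal.ofReal_mul (by positivity)]
    apply ENNReal.ofReal_le_ofReal
    linarith
  · push Not at h
    rcases le_abs.1 h with h | h
    · exact PS_pos u1 u2 c w hw h
    · have e : PS u1 u2 c w = PS (-u1) (-u2) (-c - w) w := by
        ext z
        simp only [PS, mem_ofPred_eq]
        constructor
        · rintro ⟨h1, h2, h3⟩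
          refine ⟨h1, ?_, ?_⟩ <;> linarith
        · rintro ⟨h1, h2, h3⟩
          refine ⟨h1, ?_, ?_⟩ <;> linarith
      rw [e]
      exact PS_pos (-u1) (-u2) (-c - w) w hw h

end Pool.R357.RG
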